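import Pool.Agent.D0H44.KC.Stm
import Pool.Agent.D0H12.EC.Cg

/-! Project KC, package EX: expansion into characters modulo `q` and `r`
(after `D0H12/EC/Cg.lean`). -/

set_option autoImplicit false

open Finset MeasureTheory

namespace Pool.Agent.D0H70.KC

open H343 (ex)
open Pool.Agent.H398R2.BV Pool.Agent.H410R2
open Pool.Agent.D0H44.EL
open Pool.Agent.D0H44.FR (w S_W SS)
open Pool.Agent.D0H44.KC

theorem ex_nrm (y : ℝ) : ‖ex y‖ = 1 := by
  unfold H343.ex
  exact Complex.norm_exp_ofReal_mul_I _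

theorem ex_mod (q t n : ℕ) (hq : 1 ≤ q) :
    ex ((((n % q) * t : ℕ) : ℝ) / q) = ex (((n * t : ℕ) : ℝ) / q) := by
  have hq0 : (q : ℝ) ≠ 0 := by
    have : 0 < q := hq
    positivity
  have h1 : ((n * t : ℕ) : ℝ) / q = (((n % q) * t : ℕ) : ℝ) / q + (((n / q) * t : ℕ) : ℝ) := by
    have h2 : (n : ℝ) = ((n % q : ℕ) : ℝ) + q * ((n / q : ℕ) : ℝ) := by
      exact_mod_cast (Nat.mod_add_div n q).symm
    rw [Nat.cast_mul, Nat.cast_mul, Nat.cast_mul, h2]
    field_simp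
  rw [h1, H343.Gauss.ex_add, H343.Gauss.ex_nat, mul_one]

theorem ex_expand (q t n : ℕ) (hq : 1 ≤ q) (χ : DirichletCharacter ℂ q) :
    (Nat.totient q : ℂ) * (χ (n : ZMod q) * ex (((n * t : ℕ) : ℝ) / q)) =
      ∑ ω : DirichletCharacter ℂ q, gs q t (χ * ω⁻¹) * ω (n : ZMod q) := by
  classical
  have hNZ : NeZero q := ⟨by omega⟩
  have h1 : ∀ m : ℕ, ∑ ω : DirichletCharacter ℂ q, (χ * ω⁻¹) (m : ZMod q) * ω (n : ZMod q) =
      if (m : ZMod q) = (n : ZMod q) then (Nat.totient q : ℂ) * χ (n : ZMod q) else 0 := by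
    intro m
    by_cases hm : IsUnit (m : ZMod q)
    · have h2 : ∀ ω : DirichletCharacter ℂ q, (χ * ω⁻¹) (m : ZMod q) * ω (n : ZMod q) =
          χ (m : ZMod q) * (ω (m : ZMod q)⁻¹ * ω (n : ZMod q)) := by
        intro ω
        have h3 : ω (m : ZMod q) * ω (m : ZMod q)⁻¹ = 1 := by
          rw [← map_mul, ZMod.mul_inv_of_unit _ hm, map_one]
        have h4 : ω⁻¹ (m : ZMod q) = ω (m : ZMod q)⁻¹ := by
          rw [MulChar.inv_apply_eq_inv']
          exact (eq_inv_of_mul_eq_one_right h3).symm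
        rw [MulChar.mul_apply, h4]
        ring
      rw [sum_congr rfl fun ω _ => h2 ω, ← mul_sum, DirichletCharacter.sum_char_inv_mul_char_eq ℂ hm]
      split_ifs with h
      · rw [h, mul_comm]
      · rw [mul_zero]
    · have h2 : χ (m : ZMod q) = 0 := MulChar.map_nonunit χ hm
      have h3 : ∀ ω : DirichletCharacter ℂ q, (χ * ω⁻¹) (m : ZMod q) * ω (n : ZMod q) = 0 := by
        intro ω
        rw [MulChar.mul_apply, h2]
        ring
      rw [sum_congr rfl fun ω _ => h3 ω, sum_const_zero]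
      split_ifs with h
      · rw [← h, h2, mul_zero]
      · rfl
  have h2 : ∑ ω : DirichletCharacter ℂ q, gs q t (χ * ω⁻¹) * ω (n : ZMod q) =
      ∑ m ∈ range q, ex (((m * t : ℕ) : ℝ) / q) *
        ∑ ω : DirichletCharacter ℂ q, (χ * ω⁻¹) (m : ZMod q) * ω (n : ZMod q) := by
    unfold gs
    simp_rw [sum_mul, mul_sum]
    rw [sum_comm]
    refine sum_congr rfl fun m _ => sum_congr rfl fun ω _ => ?_
    ring
  rw [h2, sum_congr rfl fun m _ => by rw [h1 m]]
  rw [sum_eq_single (n % q)]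
  · rw [if_pos (by rw [ZMod.natCast_mod]), ex_mod q t n hq]
    ring
  · intro m hm hne
    rw [if_neg, mul_zero]
    intro h
    apply hne
    rw [ZMod.natCast_eq_natCast_iff] at h
    have h3 : m % q = n % q := h
    rwa [Nat.mod_eq_of_lt (mem_range.1 hm)] at h3
  · intro h
    exact absurd (mem_range.2 (Nat.mod_lt _ (by omega))) h

theorem ex_split (q r : ℕ) (hq : 1 ≤ q) (hr : r.Prime) (hrq : ¬ r ∣ q) :
    ∃ j t : ℕ, j.Coprime r ∧ t.Coprime q ∧ ∀ n : ℕ, ex ((n : ℝ) / ((r * q : ℕ) : ℝ)) =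
      ex (((n * t : ℕ) : ℝ) / q) * ex (((n * j : ℕ) : ℝ) / r) := by
  have hc : IsCoprime (r : ℤ) (q : ℤ) := Nat.isCoprime_iff_coprime.2 ((Nat.Prime.coprime_iff_not_dvd hr).2 hrq)
  obtain ⟨b, a, hab⟩ := hc
  have hq0 : (q : ℤ) ≠ 0 := by
    have : 0 < q := hq
    positivity
  have hr0 : (r : ℤ) ≠ 0 := by
    have := hr.pos
    positivity
  obtain ⟨j, hj⟩ := Int.eq_ofNat_of_zero_le (Int.emod_nonneg a hr0)
  obtain ⟨t, ht⟩ := Int.eq_ofNat_of_zero_le (Int.emod_nonneg b hq0)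
  have ha := Int.emod_add_mul_ediv a r
  have hb := Int.emod_add_mul_ediv b q
  rw [hj] at ha
  rw [ht] at hb
  set k : ℤ := a / r + b / q with hk
  have h1 : (j : ℤ) * q + t * r + q * r * k = 1 := by
    rw [hk, ← hab, ← ha, ← hb]
    rw [ha, hb]
    have e1 : (j : ℤ) = a - r * (a / r) := by linarith
    have e2 : (t : ℤ) = b - q * (b / q) := by linarith
    rw [e1, e2]
    ring
  refine ⟨j, t, ?_, ?_, ?_⟩
  · rw [← Nat.isCoprime_iff_coprime]
    exact ⟨q, t + q * k, by linarith⟩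
  · rw [← Nat.isCoprime_iff_coprime]
    exact ⟨r, j + r * k, by linarith⟩
  · intro n
    have hq0' : (q : ℝ) ≠ 0 := by exact_mod_cast hq0
    have hr0' : (r : ℝ) ≠ 0 := by exact_mod_cast hr0
    have h2 : (j : ℝ) * q + t * r + q * r * k = 1 := by exact_mod_cast h1
    have h3 : (n : ℝ) / ((r * q : ℕ) : ℝ) = ((n * t : ℕ) : ℝ) / q + ((n * j : ℕ) : ℝ) / r +
        (((n : ℤ) * k : ℤ) : ℝ) := by
      push_cast
      field_simp
      linear_combination (-(n : ℝ)) * h2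
    rw [h3, H343.Gauss.ex_add, H343.Gauss.ex_add, H343.Gauss.ex_int, mul_one]

theorem erase_prim {r : ℕ} (hr : r.Prime) (f : DirichletCharacter ℂ r → ℝ) :
    (open Classical in ∑ ψ ∈ (univ : Finset (DirichletCharacter ℂ r)).erase 1, f ψ) = ∑ ψ ∈ Prim r, f ψ := by
  classical
  have : NeZero r := ⟨hr.ne_zero⟩
  refine sum_congr ?_ (fun _ _ => rfl)
  ext χ
  constructor
  · intro h
    have h' : χ ≠ 1 := @Finset.ne_of_mem_erase _ (_) _ _ _ h
    unfold Prim
    rw [mem_filter]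
    exact ⟨mem_univ _, prim_of_prime hr χ h'⟩
  · intro h
    exact @Finset.mem_erase_of_ne_of_mem _ (_) _ _ _ (prim_ne_one hr.two_le h) (mem_univ _)

theorem sum_one (q M : ℕ) (x : ℝ) (hq : 1 ≤ q) :
    ∑ n ∈ Icc 1 M, (((ArithmeticFunction.vonMangoldt n : ℝ) : ℂ) * ((w ((n : ℝ) / x) : ℝ) : ℂ)) *
      (1 : DirichletCharacter ℂ q) (n : ZMod q) = ((PQ x q M : ℝ) : ℂ) := by
  have hNZ : NeZero q := ⟨by omega⟩
  unfold PQ
  rw [sum_filter, Complex.ofReal_sum]
  refine sum_congr rfl fun n _ => ?_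
  split_ifs with h
  · rw [MulChar.one_apply ((ZMod.isUnit_iff_coprime n q).2 h), mul_one]
    push_cast
    rfl
  · rw [MulChar.map_nonunit _ (fun hu => h ((ZMod.isUnit_iff_coprime n q).1 hu)), mul_zero]
    simp

theorem t_EX (hW : S_W) (hGS : S_GS) : S_EX := by
  classical
  intro x q M r χ hx hq hM hr hrq hχ
  obtain ⟨-, -, -, h01, -⟩ := hW
  have hNZ : NeZero r := ⟨hr.ne_zero⟩
  have hNZq : NeZero q := ⟨by omega⟩
  have hr2 : (2 : ℝ) ≤ r := by exact_mod_cast hr.two_le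
  have hr1 : 0 < (r : ℝ) - 1 := by linarith
  obtain ⟨j, t, hj, ht, hsplit⟩ := ex_split q r hq hr hrq
  have hju : IsUnit (j : ZMod r) := (ZMod.isUnit_iff_coprime j r).mpr hj
  set φ : ℝ := (Nat.totient q : ℝ) with hφ
  have hφ0 : 0 < φ := by
    rw [hφ]
    exact_mod_cast Nat.totient_pos.2 (by omega)
  set c : ℕ → ℂ := fun n => ((ArithmeticFunction.vonMangoldt n : ℝ) : ℂ) * ((w ((n : ℝ) / x) : ℝ) : ℂ) with hc
  have hcn : ∀ n, ‖c n‖ ≤ ArithmeticFunction.vonMangoldt n := by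
    intro n
    simp only [hc]
    rw [norm_mul, Complex.norm_real, Complex.norm_real,
      Real.norm_of_nonneg ArithmeticFunction.vonMangoldt_nonneg, Real.norm_of_nonneg (h01 _).1]
    exact mul_le_of_le_one_right ArithmeticFunction.vonMangoldt_nonneg (h01 _).2
  set Om : ℕ → ℂ := fun n => ∑ ω : DirichletCharacter ℂ q, gs q t (χ * ω⁻¹) * ω (n : ZMod q) with hOm
  have hOmA : ∀ n, Om n = (φ : ℂ) * (χ (n : ZMod q) * ex (((n * t : ℕ) : ℝ) / q)) := by
    intro n
    simp only [hOm]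
    rw [← ex_expand q t n hq χ, hφ]
    push_cast
    rfl
  have hOmn : ∀ n, ‖Om n‖ ≤ φ := by
    intro n
    rw [hOmA, norm_mul, norm_mul, ex_nrm, mul_one, Complex.norm_real, Real.norm_of_nonneg hφ0.le]
    exact mul_le_of_le_one_right hφ0.le (DirichletCharacter.norm_le_one χ _)
  set Ps : ℕ → ℂ := fun n => ∑ ψ ∈ Prim r, H343.GS ψ⁻¹ * (ψ (j : ZMod r) * ψ (n : ZMod r)) with hPs
  set Re : ℕ → ℂ := fun n => if n.Coprime r then 0 else (r : ℂ) with hRe
  have hB : ∀ n : ℕ, ((r : ℂ) - 1) * ex (((n * j : ℕ) : ℝ) / r) = -1 + Ps n + Re n := by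
    intro n
    have := Pool.Agent.D0H12.EC.expand_pt hr j hj n
    simp only [hPs, hRe]
    linear_combination this
  -- the main identity
  have hmain : (((r : ℂ) - 1) * (φ : ℂ)) * TX x q r M χ =
      -(∑ n ∈ Icc 1 M, c n * Om n) + ∑ n ∈ Icc 1 M, c n * Om n * Ps n +
        ∑ n ∈ Icc 1 M, c n * Om n * Re n := by
    unfold TX
    rw [mul_sum, ← sum_neg_distrib, ← sum_add_distrib, ← sum_add_distrib]
    refine sum_congr rfl fun n _ => ?_
    have e1 := hOmA n
    have e2 := hB n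
    rw [hsplit n]
    have e3 : -(c n * Om n) + c n * Om n * Ps n + c n * Om n * Re n =
        c n * Om n * (-1 + Ps n + Re n) := by ring
    rw [e3, ← e2, e1]
    simp only [hc]
    ring
  have hone : gs q t χ * ((PQ x q M : ℝ) : ℂ) = (∑ n ∈ Icc 1 M, c n * Om n) -
      ∑ ω ∈ (univ : Finset (DirichletCharacter ℂ q)).erase 1, gs q t (χ * ω⁻¹) *
        SS M (fun y => w (y / x)) q ω := by
    have e1 : ∑ n ∈ Icc 1 M, c n * Om n = ∑ ω : DirichletCharacter ℂ q, gs q t (χ * ω⁻¹) *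
        ∑ n ∈ Icc 1 M, c n * ω (n : ZMod q) := by
      simp only [hOm]
      simp_rw [mul_sum]
      rw [sum_comm]
      refine sum_congr rfl fun ω _ => sum_congr rfl fun n _ => ?_
      ring
    rw [e1, ← add_sum_erase _ _ (mem_univ (1 : DirichletCharacter ℂ q))]
    have e2 : χ * (1 : DirichletCharacter ℂ q)⁻¹ = χ := by
      rw [inv_one, mul_one]
    have e3 := sum_one q M x hq
    rw [e2]
    simp only [hc]
    rw [e3]
    have e4 : ∀ ω : DirichletCharacter ℂ q, ∑ n ∈ Icc 1 M,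
        (((ArithmeticFunction.vonMangoldt n : ℝ) : ℂ) * ((w ((n : ℝ) / x) : ℝ) : ℂ)) * ω (n : ZMod q) =
        SS M (fun y => w (y / x)) q ω := by
      intro ω
      unfold Pool.Agent.D0H44.FR.SS
      refine sum_congr rfl fun n _ => ?_
      ring
    rw [sum_congr rfl fun ω _ => by rw [e4 ω]]
    ring
  -- norms
  have hn1 : ‖∑ ω ∈ (univ : Finset (DirichletCharacter ℂ q)).erase 1, gs q t (χ * ω⁻¹) *
        SS M (fun y => w (y / x)) q ω‖ ≤ Real.sqrt q * KN x q M := by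
    refine (norm_sum_le _ _).trans ?_
    have e0 : KN x q M = ∑ ω ∈ (univ : Finset (DirichletCharacter ℂ q)).erase 1,
        ‖SS M (fun y => w (y / x)) q ω‖ := by
      unfold KN
      refine sum_congr ?_ (fun _ _ => rfl)
      ext ω
      simp
    rw [e0, mul_sum]
    refine sum_le_sum fun ω _ => ?_
    rw [norm_mul]
    exact mul_le_mul_of_nonneg_right (hGS q t (χ * ω⁻¹) hq ht).1 (norm_nonneg _)
  have hn2 : ‖∑ n ∈ Icc 1 M, c n * Om n * Ps n‖ ≤ Real.sqrt q * (Real.sqrt r * KR x q M r) := by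
    have e1 : ∑ n ∈ Icc 1 M, c n * Om n * Ps n = ∑ ψ ∈ Prim r, ∑ ω : DirichletCharacter ℂ q,
        (gs q t (χ * ω⁻¹) * (H343.GS ψ⁻¹ * ψ (j : ZMod r))) *
        ∑ n ∈ Icc 1 M, ((ArithmeticFunction.vonMangoldt n : ℝ) : ℂ) *
      (((w ((n : ℝ) / x) : ℝ) : ℂ) * (ω (n : ZMod q) * ψ (n : ZMod r))) := by
      simp only [hOm, hPs]
      have e2 : ∀ n ∈ Icc 1 M, c n * (∑ ω : DirichletCharacter ℂ q, gs q t (χ * ω⁻¹) * ω (n : ZMod q)) *
          (∑ ψ ∈ Prim r, H343.GS ψ⁻¹ * (ψ (j : ZMod r) * ψ (n : ZMod r))) =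
          ∑ ψ ∈ Prim r, ∑ ω : DirichletCharacter ℂ q,
        (gs q t (χ * ω⁻¹) * (H343.GS ψ⁻¹ * ψ (j : ZMod r))) *
        (((ArithmeticFunction.vonMangoldt n : ℝ) : ℂ) *
      (((w ((n : ℝ) / x) : ℝ) : ℂ) * (ω (n : ZMod q) * ψ (n : ZMod r)))) := by
        intro n _
        rw [mul_assoc, mul_comm (∑ ω : DirichletCharacter ℂ q, gs q t (χ * ω⁻¹) * ω (n : ZMod q)),
          sum_mul_sum, mul_sum]
        refine sum_congr rfl fun ψ _ => ?_
        rw [mul_sum]
        refine sum_congr rfl fun ω _ => ?_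
        simp only [hc]
        ring
      rw [sum_congr rfl e2, sum_comm]
      refine sum_congr rfl fun ψ _ => ?_
      rw [sum_comm]
      refine sum_congr rfl fun ω _ => ?_
      rw [mul_sum]
    rw [e1]
    refine (norm_sum_le _ _).trans ?_
    unfold KR
    rw [erase_prim hr, mul_sum, mul_sum]
    refine sum_le_sum fun ψ hψ => ?_
    refine (norm_sum_le _ _).trans ?_
    rw [mul_sum, mul_sum]
    refine sum_le_sum fun ω _ => ?_
    have hprim : ψ.IsPrimitive := by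
      unfold Prim at hψ
      rw [mem_filter] at hψ
      exact hψ.2
    have hinv : (ψ⁻¹).IsPrimitive := by
      rw [DirichletCharacter.isPrimitive_def, DirichletCharacter.conductor_inv]
      exact hprim
    have hj1 : ‖ψ (j : ZMod r)‖ = 1 := by
      obtain ⟨u, hu⟩ := hju
      rw [← hu]
      exact DirichletCharacter.unit_norm_eq_one ψ u
    rw [norm_mul, norm_mul, norm_mul, hj1, mul_one, H343.GS_primitive r hr.one_le ψ⁻¹ hinv, mul_assoc]
    exact mul_le_mul_of_nonneg_right (hGS q t (χ * ω⁻¹) hq ht).1 (by positivity)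
  have hn3 : ‖∑ n ∈ Icc 1 M, c n * Om n * Re n‖ ≤ r * φ * Real.log M := by
    have h2 := sum_not_coprime M r hr.one_le
    rw [hr.primeFactors, card_singleton, Nat.cast_one, one_mul] at h2
    refine (norm_sum_le _ _).trans ?_
    refine le_trans ?_ (mul_le_mul_of_nonneg_left h2 (by positivity))
    rw [sum_filter, mul_sum]
    refine sum_le_sum fun n _ => ?_
    simp only [hRe]
    by_cases hn : n.Coprime r
    · rw [if_pos hn, if_neg (not_not.2 hn), mul_zero, norm_zero, mul_zero]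
    · rw [if_neg hn, if_pos hn, norm_mul, norm_mul, Complex.norm_natCast]
      have e1 := mul_le_mul (hcn n) (hOmn n) (norm_nonneg _) ArithmeticFunction.vonMangoldt_nonneg
      have e2 := mul_le_mul_of_nonneg_right e1 (show (0 : ℝ) ≤ r by positivity)
      refine e2.trans (le_of_eq ?_)
      ring
  have hPQ : 0 ≤ PQ x q M := by
    unfold PQ
    exact sum_nonneg fun n _ => mul_nonneg ArithmeticFunction.vonMangoldt_nonneg (h01 _).1
  have hlog : 0 ≤ Real.log (M : ℝ) := Real.log_natCast_nonneg M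
  have hL : Real.sqrt q * PQ x q M ≤ ((r : ℝ) - 1) * φ * ‖TX x q r M χ‖ + Real.sqrt q * KN x q M +
      Real.sqrt q * (Real.sqrt r * KR x q M r) + r * φ * Real.log M := by
    have e1 : Real.sqrt q * PQ x q M = ‖gs q t χ * ((PQ x q M : ℝ) : ℂ)‖ := by
      rw [norm_mul, (hGS q t χ hq ht).2 hχ, Complex.norm_real, Real.norm_of_nonneg hPQ]
    have e2 : gs q t χ * ((PQ x q M : ℝ) : ℂ) = -((((r : ℂ) - 1) * (φ : ℂ)) * TX x q r M χ) +
        ∑ n ∈ Icc 1 M, c n * Om n * Ps n + ∑ n ∈ Icc 1 M, c n * Om n * Re n -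
      ∑ ω ∈ (univ : Finset (DirichletCharacter ℂ q)).erase 1, gs q t (χ * ω⁻¹) *
        SS M (fun y => w (y / x)) q ω := by
      rw [hone, hmain]
      ring
    have e3 : ‖(((r : ℂ) - 1) * (φ : ℂ)) * TX x q r M χ‖ = ((r : ℝ) - 1) * φ * ‖TX x q r M χ‖ := by
      rw [norm_mul, norm_mul, Complex.norm_real, Real.norm_of_nonneg hφ0.le]
      have : ((r : ℂ) - 1) = (((r : ℝ) - 1 : ℝ) : ℂ) := by
        push_cast
        rfl
      rw [this, Complex.norm_real, Real.norm_of_nonneg hr1.le]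
    rw [e1, e2]
    refine (norm_sub_le _ _).trans ?_
    refine (add_le_add (norm_add_le _ _) le_rfl).trans ?_
    refine (add_le_add (add_le_add (norm_add_le _ _) le_rfl) le_rfl).trans ?_
    rw [norm_neg, e3]
    linarith
  have hD : 0 < ((r : ℝ) - 1) * φ := mul_pos hr1 hφ0
  have h5 : Real.sqrt q / (((r : ℝ) - 1) * φ) * PQ x q M =
      (Real.sqrt q * PQ x q M) / (((r : ℝ) - 1) * φ) := by ring
  rw [h5]
  refine (div_le_div_of_nonneg_right hL hD.le).trans ?_
  have h6 : (((r : ℝ) - 1) * φ * ‖TX x q r M χ‖ + Real.sqrt q * KN x q M +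
      Real.sqrt q * (Real.sqrt r * KR x q M r) + r * φ * Real.log M) / (((r : ℝ) - 1) * φ) =
      ‖TX x q r M χ‖ + Real.sqrt q / (((r : ℝ) - 1) * φ) * (Real.sqrt r * KR x q M r + KN x q M) +
        (r / ((r : ℝ) - 1)) * Real.log M := by
    field_simp
    ring
  rw [h6]
  have h7 : (r : ℝ) / ((r : ℝ) - 1) ≤ 3 := by
    rw [div_le_iff₀ hr1]
    linarith
  have h8 := mul_le_mul_of_nonneg_right h7 hlog
  linarith

end Pool.Agent.D0H70.KC
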