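import Pool.Agent.D0H34.KC.Stm

/-! Project KC, module PRM: choice of the primes and of the integers `a_i`. -/

set_option autoImplicit false

namespace Pool.Agent.D0H70.KC

open Pool.Agent.D0H34.KC

theorem crt {ι : Type} [Fintype ι] (M : ι → ℕ) (hM : Pairwise (Function.onFun Nat.Coprime M))
    (x : ∀ i, ZMod (M i)) : ∃ N : ℤ, ∀ i, ((N : ℤ) : ZMod (M i)) = x i := by
  classical
  obtain ⟨N, hN⟩ := ZMod.intCast_surjective ((ZMod.prodEquivPi M hM).symm x)
  refine ⟨N, fun i => ?_⟩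
  have h1 := congrArg (ZMod.prodEquivPi M hM) hN
  rw [RingEquiv.apply_symm_apply, map_intCast] at h1
  have h2 := congrFun h1 i
  rw [← h2]
  rfl

/-- distinct primes `≡ 1` modulo `m` -/
theorem primes (m k B : ℕ) (hm : m ≠ 0) : ∃ q : Fin k → ℕ, Function.Injective q ∧
    ∀ i, (q i).Prime ∧ B < q i ∧ q i ≡ 1 [MOD m] := by
  have h1 : Set.Infinite {p : ℕ | Nat.Prime p ∧ p ≡ 1 [MOD m]} := Nat.infinite_setOfPred_prime_modEq_one hm
  have h2 := h1.sdiff (Set.finite_le_nat B)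
  let f := h2.natEmbedding
  refine ⟨fun i => (f (i : ℕ) : ℕ), ?_, ?_⟩
  · intro i j hij
    exact Fin.ext (f.injective (Subtype.ext hij))
  · intro i
    have h3 := (f (i : ℕ)).2
    exact ⟨h3.1.1, not_le.1 h3.2, h3.1.2⟩

/-- a primitive `n`-th root of unity -/
theorem root (p n : ℕ) [Fact p.Prime] (hp : p ≡ 1 [MOD n]) :
    ∃ ζ : (ZMod p)ˣ, orderOf ζ = n := by
  obtain ⟨g, hg⟩ := IsCyclic.exists_generator (α := (ZMod p)ˣ)
  have hpp : p.Prime := Fact.out
  have h1 : orderOf g = p - 1 := by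
    rw [orderOf_eq_card_of_forall_mem_zpowers hg, Nat.card_eq_fintype_card, ZMod.card_units_eq_totient,
      Nat.totient_prime hpp]
  have h2 : n ∣ p - 1 := (Nat.modEq_iff_dvd' hpp.one_lt.le).1 hp.symm
  obtain ⟨t, ht⟩ := h2
  have hp1 : 0 < p - 1 := Nat.sub_pos_of_lt hpp.one_lt
  have ht0 : t ≠ 0 := by
    rintro rfl
    rw [mul_zero] at ht
    omega
  refine ⟨g ^ t, ?_⟩
  rw [orderOf_pow_of_dvd ht0 (by rw [h1, ht]; exact Dvd.intro_left n rfl), h1, ht]
  exact Nat.mul_div_cancel n (Nat.pos_of_ne_zero ht0)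

/-- the last clause -/
theorem clause (q m : ℕ) [Fact q.Prime] (hq : q ≡ 1 [MOD m]) (ρ : (ZMod q)ˣ)
    (hρ : ∀ x, x ∈ Subgroup.zpowers ρ) (ℓ : ℕ) (hℓ : ℓ ∣ m) (e : ℤ) (z : ZMod q) (hz : z ≠ 0)
    (h : (ρ : ZMod q) ^ e = z ^ ℓ) : (ℓ : ℤ) ∣ e := by
  have hqp : q.Prime := Fact.out
  have h1 : orderOf ρ = q - 1 := by
    rw [orderOf_eq_card_of_forall_mem_zpowers hρ, Nat.card_eq_fintype_card, ZMod.card_units_eq_totient,
      Nat.totient_prime hqp]
  obtain ⟨t, ht⟩ := Subgroup.mem_zpowers_iff.1 (hρ (Units.mk0 z hz))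
  have h2 : ρ ^ e = (ρ ^ t) ^ ℓ := by
    apply Units.ext
    rw [Units.val_zpow_eq_zpow_val, h, ht, Units.val_pow_eq_pow_val, Units.val_mk0]
  have h3 : ρ ^ (e - t * ℓ) = 1 := by
    rw [zpow_sub, zpow_mul, zpow_natCast, h2, mul_inv_cancel]
  have h4 : ((orderOf ρ : ℕ) : ℤ) ∣ e - t * ℓ := orderOf_dvd_iff_zpow_eq_one.2 h3
  have h5 : ℓ ∣ orderOf ρ := by
    rw [h1]
    exact hℓ.trans ((Nat.modEq_iff_dvd' hqp.one_lt.le).1 hq.symm)
  have h6 : (ℓ : ℤ) ∣ e - t * ℓ := (Int.natCast_dvd_natCast.2 h5).trans h4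
  have h7 : (ℓ : ℤ) ∣ (e - t * ℓ) + t * ℓ := dvd_add h6 (Dvd.intro_left t rfl)
  rwa [sub_add_cancel] at h7

theorem t_PRM : S_PRM := by
  classical
  intro n k m hm hkn hn
  obtain ⟨p, hpp, hpn, hp1⟩ := Nat.exists_prime_gt_modEq_one (k := n) n (by omega)
  have : Fact p.Prime := ⟨hpp⟩
  obtain ⟨q, hqinj, hq⟩ := primes m k p (by omega)
  have : ∀ i, Fact (q i).Prime := fun i => ⟨(hq i).1⟩
  obtain ⟨ζ, hζ⟩ := root p n hp1
  choose ρ hρ using fun i => IsCyclic.exists_generator (α := (ZMod (q i))ˣ)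
  have hqp : ∀ i, q i ≠ p := fun i => (hq i).2.1.ne'
  let M : Option (Fin k) → ℕ := fun o => o.elim p q
  have hM : Pairwise (Function.onFun Nat.Coprime M) := by
    intro i j hij
    rcases i with _ | i <;> rcases j with _ | j
    · exact absurd rfl hij
    · exact (Nat.coprime_primes hpp (hq j).1).2 (hqp j).symm
    · exact (Nat.coprime_primes (hq i).1 hpp).2 (hqp i)
    · refine (Nat.coprime_primes (hq i).1 (hq j).1).2 (fun h => hij ?_)
      rw [hqinj h]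
  let x : ∀ (j : Fin k) (o : Option (Fin k)), ZMod (M o) := fun j o => match o with
    | none => ((ζ ^ (j : ℕ) : (ZMod p)ˣ) : ZMod p)
    | some i => if i = j then -((ρ i : (ZMod (q i))ˣ) : ZMod (q i)) else -1
  choose a ha using fun j => crt M hM (x j)
  have hap : ∀ j, ((a j : ℤ) : ZMod p) = ((ζ ^ (j : ℕ) : (ZMod p)ˣ) : ZMod p) := fun j => ha j none
  have haq : ∀ j i, ((a j : ℤ) : ZMod (q i)) =
      if i = j then -((ρ i : (ZMod (q i))ˣ) : ZMod (q i)) else -1 := fun j i => ha j (some i)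
  have hne : ∀ i j, i ≠ j → ¬ (p : ℤ) ∣ a i - a j := by
    intro i j hij hdvd
    rw [← ZMod.intCast_zmod_eq_zero_iff_dvd, Int.cast_sub, sub_eq_zero, hap, hap] at hdvd
    have h1 := Units.ext hdvd
    apply hij
    apply Fin.ext
    exact pow_injOn_Iio_orderOf (by rw [Set.mem_Iio, hζ]; exact lt_of_lt_of_le i.2 hkn)
      (by rw [Set.mem_Iio, hζ]; exact lt_of_lt_of_le j.2 hkn) h1
  have hqa : ∀ i, ¬ (q i : ℤ) ∣ a i := by
    intro i hdvd
    rw [← ZMod.intCast_zmod_eq_zero_iff_dvd, haq, if_pos rfl, neg_eq_zero] at hdvd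
    exact (ρ i).ne_zero hdvd
  obtain ⟨w, hwp, hwB, hw1⟩ := Nat.exists_prime_gt_modEq_one (k := p)
    (p + ∑ i, q i + ∑ i, 2 * (a i).natAbs) hpp.ne_zero
  have hqw : ∀ i, q i < w := by
    intro i
    have := Finset.single_le_sum (f := q) (fun _ _ => Nat.zero_le _) (Finset.mem_univ i)
    omega
  have haw : ∀ i, 2 * |a i| < w := by
    intro i
    have h1 : 2 * (a i).natAbs ≤ ∑ j, 2 * (a j).natAbs :=
      Finset.single_le_sum (f := fun i => 2 * (a i).natAbs) (fun _ _ => Nat.zero_le _)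
        (Finset.mem_univ i)
    have h2 : 2 * (a i).natAbs < w := by omega
    rw [Int.abs_eq_natAbs]
    exact_mod_cast h2
  have ha0 : ∀ i, a i ≠ 0 := by
    intro i h
    apply hqa i
    rw [h]
    exact dvd_zero _
  refine ⟨p, w, q, a, hpp, hwp, fun i => (hq i).1, hqinj, by omega, fun i => ⟨hqp i, (hqw i).ne⟩, ?_, ?_,
    hne, ?_, ?_, ?_, hqa, ?_⟩
  · exact_mod_cast (Int.natCast_modEq_iff.2 hw1)
  · intro i
    rw [← ZMod.intCast_eq_intCast_iff, Int.cast_pow, hap, ← Units.val_pow_eq_pow_val, ← pow_mul,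
      mul_comm, pow_mul, ← hζ, pow_orderOf_eq_one, one_pow, Units.val_one, Int.cast_one]
  · intro i hdvd
    refine ha0 i (Int.eq_zero_of_abs_lt_dvd hdvd ?_)
    have := haw i
    have := abs_nonneg (a i)
    linarith
  · intro i j hij hdvd
    have h1 : a i - a j ≠ 0 := by
      intro h
      apply hne i j hij
      rw [h]
      exact dvd_zero _
    refine h1 (Int.eq_zero_of_abs_lt_dvd hdvd ?_)
    have h2 := haw i
    have h3 := haw j
    have h4 := abs_sub (a i) (a j)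
    linarith
  · intro i j hij
    rw [← ZMod.intCast_eq_intCast_iff, haq, if_neg hij]
    simp
  · intro i _ ℓ _ hℓ e z hz h
    refine clause (q i) m (hq i).2.2 (ρ i) (hρ i) ℓ hℓ e z hz ?_
    rw [← h]
    congr 1
    rw [Int.cast_neg, haq, if_pos rfl, neg_neg]

end Pool.Agent.D0H70.KC
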